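import Pool.Agent.Helper10.SP.GoalsI
import Pool.Agent.Helper95.Lin.Basics
import Pool.Agent.Helper83.SP.DER

/-! # Packet SP-BID: the Bochner identity (pointwise) -/

open Complex Metric Set Filter Topology MeasureTheory
open scoped ContDiff ComplexConjugate ComplexOrder Manifold

namespace Pool.Agent.Helper53.SP

open Pool.Agent.Helper95.Lin Pool.Agent.Helper16.Abund Pool.Agent.Helper92.Orb
open Pool.Agent.Helper10.SP Pool.Agent.Helper83.SP

namespace Bid

variable {b p : ℕ}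

theorem sum_cons {A : Type*} [AddCommMonoid A] (f : (Fin (p + 1) → Fin b) → A) :
    ∑ K, f K = ∑ i, ∑ J : Fin p → Fin b, f (Fin.cons i J) := by
  rw [← (Fin.consEquiv (fun _ : Fin (p + 1) => Fin b)).sum_comp, Fintype.sum_prod_type]
  rfl

theorem sg_holo {D : Set (Cn b)} {V : Fin (p + 1) → Cn b → Cn b}
    (hV : ∀ k, DifferentiableOn ℂ (V k) D) (I : Fin (p + 1) → Fin b) :
    DifferentiableOn ℂ (fun y => sg V y I) D := by
  simp only [sg, Matrix.det_apply']
  refine DifferentiableOn.fun_sum fun e _ => ?_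
  refine DifferentiableOn.const_mul ?_ _
  have h : DifferentiableOn ℂ (fun y => ∏ k, V (e k) y (I k)) D := by
    intro x hx
    exact (HasFDerivWithinAt.finsetProd fun k _ =>
      (differentiableOn_pi.1 (hV (e k)) (I k) x hx).hasFDerivWithinAt).differentiableWithinAt
  exact h

theorem sg_swap (V : Fin (p + 1) → Cn b → Cn b) (z : Cn b) (s : Fin p)
    (K : Fin (p + 1) → Fin b) : sg V z (K ∘ Equiv.swap 0 s.succ) = - sg V z K := by
  have h := Matrix.det_permute' (Equiv.swap 0 s.succ) (Matrix.of fun k l => V k z (K l))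
  rw [Equiv.Perm.sign_swap (Fin.succ_ne_zero s).symm] at h
  have h2 : (Matrix.of fun k l => V k z (K l)).submatrix id (Equiv.swap 0 s.succ) =
      Matrix.of fun k l => V k z ((K ∘ Equiv.swap 0 s.succ) l) := rfl
  rw [h2] at h
  rw [sg, sg, h]
  simp

/-- The second term vanishes. -/
theorem van (s : Fin p) (σ : (Fin (p + 1) → Fin b) → ℂ)
    (hσ : ∀ K, σ (K ∘ Equiv.swap 0 s.succ) = - σ K) (θ : Matrix (Fin b) (Fin b) ℂ)
    (a : Fin b → Fin b → Fin b → ℂ) (ha : ∀ i j l, a i j l = a j i l) (L : Fin p → Fin b) :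
    ∑ i, ∑ J : Fin p → Fin b, σ (Fin.cons i J) *
      (a i (J s) (L s) * ∏ s' ∈ Finset.univ.erase s, θ (J s') (L s')) = 0 := by
  set F : (Fin (p + 1) → Fin b) → ℂ := fun K => σ K *
    (a (K 0) (K s.succ) (L s) * ∏ s' ∈ Finset.univ.erase s, θ (K s'.succ) (L s')) with hF
  have h1 : ∑ i, ∑ J : Fin p → Fin b, σ (Fin.cons i J) *
      (a i (J s) (L s) * ∏ s' ∈ Finset.univ.erase s, θ (J s') (L s')) = ∑ K, F K := by
    rw [sum_cons]
    simp only [hF, Fin.cons_zero, Fin.cons_succ]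
  have h2 : ∀ K, F (K ∘ Equiv.swap 0 s.succ) = - F K := by
    intro K
    have e1 : (K ∘ Equiv.swap 0 s.succ) 0 = K s.succ := by
      simp
    have e2 : (K ∘ Equiv.swap 0 s.succ) s.succ = K 0 := by
      simp
    have e3 : ∀ s' ∈ Finset.univ.erase s, (K ∘ Equiv.swap 0 s.succ) s'.succ = K s'.succ := by
      intro s' hs'
      have h3 : s' ≠ s := Finset.ne_of_mem_erase hs'
      rw [Function.comp, Equiv.swap_apply_of_ne_of_ne (Fin.succ_ne_zero s')
        (fun h => h3 (Fin.succ_injective _ h))]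
    simp only [hF]
    rw [hσ, e1, e2, ha (K s.succ) (K 0), Finset.prod_congr rfl fun s' hs' => by rw [e3 s' hs']]
    ring
  have h3 : ∑ K, F K = ∑ K, F (K ∘ Equiv.swap 0 s.succ) := by
    have := (Equiv.arrowCongr (Equiv.swap (0 : Fin (p + 1)) s.succ) (Equiv.refl (Fin b))).sum_comp F
    rw [← this]
    rfl
  rw [h1]
  have h4 : ∑ K, F K = - ∑ K, F K := by
    nth_rewrite 1 [h3]
    rw [← Finset.sum_neg_distrib]
    exact Finset.sum_congr rfl fun K _ => h2 K
  exact self_eq_neg.1 h4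

/-- A holomorphic one form which vanishes on the fields. -/
theorem tau_sg (V : Fin (p + 1) → Cn b → Cn b) (z : Cn b) (τ : Cn b →L[ℂ] ℂ)
    (hτ : ∀ k, τ (V k z) = 0) (L : Fin p → Fin b) :
    ∑ k, τ (Pi.single k 1) * sg V z (Fin.cons k L) = 0 := by
  have h1 : ∀ k, sg V z (Fin.cons k L) = ∑ i : Fin (p + 1), (-1) ^ (i : ℕ) * V i z k *
      ((Matrix.of fun (i : Fin (p + 1)) (l : Fin (p + 1)) =>
        V i z ((Fin.cons k L : Fin (p + 1) → Fin b) l)).submatrix i.succAbove Fin.succ).det := by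
    intro k
    rw [sg, Matrix.det_succ_column_zero]
    rfl
  have h2 : ∀ (k : Fin b) (i : Fin (p + 1)),
      ((Matrix.of fun (i : Fin (p + 1)) (l : Fin (p + 1)) =>
        V i z ((Fin.cons k L : Fin (p + 1) → Fin b) l)).submatrix i.succAbove Fin.succ) =
      Matrix.of fun i' l => V (i.succAbove i') z (L l) := by
    intro k i
    ext i' l
    simp
  simp only [h1, h2, Finset.mul_sum]
  rw [Finset.sum_comm]
  refine Finset.sum_eq_zero fun i _ => ?_
  have h3 : ∑ k, V i z k * τ (Pi.single k 1) = 0 := by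
    rw [← hτ i]
    conv_rhs => rw [pi_eq_sum_univ' (V i z), map_sum]
    refine Finset.sum_congr rfl fun k _ => ?_
    rw [map_smul, smul_eq_mul]
  have h4 : ∀ k, τ (Pi.single k 1) * ((-1) ^ (i : ℕ) * V i z k *
      (Matrix.of fun i' l => V (i.succAbove i') z (L l)).det) = (-1) ^ (i : ℕ) *
      (Matrix.of fun i' l => V (i.succAbove i') z (L l)).det * (V i z k * τ (Pi.single k 1)) := by
    intro k
    ring
  simp only [h4]
  rw [← Finset.mul_sum, h3, mul_zero]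

/-- A form with vanishing quadratic form vanishes. -/
theorem hermi_zero {n : ℕ} (A : Matrix (Fin n) (Fin n) ℂ) (h : ∀ e, hermi A e e = 0)
    (j k : Fin n) : A j k = 0 := by
  have hs : ∀ (i : Fin n) (c : ℂ) (l : Fin n), (Pi.single i c : Cn n) l = if l = i then c else 0 :=
    fun i c l => by rw [Pi.single_apply]
  have hd : ∀ i, A i i = 0 := by
    intro i
    have := h (Pi.single i 1)
    simp only [hermi, hs] at this
    simpa using this
  have h2 : ∀ (j k : Fin n) (c : ℂ), A j j + A j k * conj c + A k j * c + A k k * (c * conj c) =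
      hermi A (Pi.single j 1 + Pi.single k c) (Pi.single j 1 + Pi.single k c) := by
    intro j k c
    simp only [hermi, Pi.add_apply, hs, map_add, mul_add, add_mul, Finset.sum_add_distrib,
      apply_ite conj, map_zero, map_one]
    simp
    ring
  have h3 := h2 j k 1
  have h4 := h2 j k I
  rw [h, hd, hd] at h3 h4
  simp only [map_one, conj_I] at h3 h4
  have h5 : A j k = - A k j := by linear_combination h3
  have h6 : A j k * (-I) + A k j * I = 0 := by linear_combination h4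
  rw [h5] at h6
  have h7 : A k j * (2 * I) = 0 := by linear_combination h6
  have h8 : A k j = 0 := by
    rcases mul_eq_zero.1 h7 with h | h
    · exact h
    · exact absurd h (by simp [I_ne_zero])
  rw [h5, h8, neg_zero]

theorem cd_exp {n : ℕ} (l : Fin n) {f : Cn n → ℝ} {x : Cn n} (hf : DifferentiableAt ℝ f x) :
    cd l (fun y => ((Real.exp (f y) : ℝ) : ℂ)) x =
      ((Real.exp (f x) : ℝ) : ℂ) * cd l (fun y => ((f y : ℝ) : ℂ)) x := by
  have h1 : HasFDerivAt (fun y => ((f y : ℝ) : ℂ)) (ofRealCLM.comp (fderiv ℝ f x)) x :=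
    ofRealCLM.hasFDerivAt.comp x hf.hasFDerivAt
  have h2 : HasFDerivAt (fun y => ((Real.exp (f y) : ℝ) : ℂ))
      (ofRealCLM.comp (Real.exp (f x) • fderiv ℝ f x)) x :=
    ofRealCLM.hasFDerivAt.comp x hf.hasFDerivAt.exp
  simp only [cd, h1.fderiv, h2.fderiv]
  simp
  ring

theorem cd_prod {n m : ℕ} (l : Fin n) (f : Fin m → Cn n → ℂ) (x : Cn n)
    (hf : ∀ s, DifferentiableAt ℝ (f s) x) :
    cd l (fun y => ∏ s, f s y) x =
      ∑ s, cd l (f s) x * ∏ s' ∈ Finset.univ.erase s, f s' x := by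
  have h1 : HasFDerivAt (fun y => ∏ s, f s y)
      (∑ s, (∏ s' ∈ Finset.univ.erase s, f s' x) • fderiv ℝ (f s) x) x :=
    HasFDerivAt.finsetProd fun s _ => (hf s).hasFDerivAt
  simp only [cd, h1.fderiv]
  simp only [sum_apply, smul_apply, smul_eq_mul]
  rw [Finset.mul_sum, ← Finset.sum_sub_distrib]
  exact Finset.sum_congr rfl fun s _ => by ring

variable {D : Set (Cn b)}

/-- The computation of `cd` for the Bochner field. -/
theorem main (hWIRT : S_WIRT) (hLMF : S_LMF) (hD : IsOpen D) {Φ μ u : Cn b → ℝ} {τ : Cn b → ℂ}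
    {V : Fin (p + 1) → Cn b → Cn b} (hΦ : ContDiffOn ℝ ∞ Φ D) (hμ : ContDiffOn ℝ ∞ μ D)
    (hu : ContDiffOn ℝ ∞ u D) (hμ0 : ∀ z ∈ D, 0 < μ z) (hV : ∀ k, DifferentiableOn ℂ (V k) D)
    (hlev : ∀ z ∈ D, ∀ e, lev u z e = 0) (hτV : ∀ k, ∀ z ∈ D, fderiv ℂ τ z (V k z) = 0)
    (hLM : ∀ z ∈ D, ∀ j k, LM (fun y => Real.log (μ y)) z j k = LM Φ z j k -
      fderiv ℂ τ z (Pi.single j 1) * conj (fderiv ℂ τ z (Pi.single k 1)) /
        (((τ z).im ^ 2 : ℝ) : ℂ)) :
    ContDiffOn ℝ ∞ (YB Φ μ u V) D ∧ ∀ z ∈ D,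
    (μ z : ℂ)⁻¹ * ∑ i, cd i (fun y => (μ y : ℂ) * YB Φ μ u V y i) z =
      (Real.exp (-2 * u z) : ℂ) * (tf (LM Φ z) (dsg (fun y => μ y * Real.exp (-2 * u y)) V z)
        (dsg (fun y => μ y * Real.exp (-2 * u y)) V z) + tf (LM Φ z) (sg V z) (sg V z)) := by
  set W : Cn b → ℝ := fun y => μ y * Real.exp (-2 * u y) with hW
  have hsum := fun {ι : Type} (s : Finset ι) (f : ι → Cn b → ℂ)
    (hf : ∀ j ∈ s, ContDiffOn ℝ ∞ (f j) D) (l : Fin b) {x : Cn b} (hx : x ∈ D) =>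
    cd_sum hWIRT hD s f hf l hx
  have hcg := fun {f g : Cn b → ℂ} (h : ∀ y ∈ D, f y = g y) (l : Fin b) {x : Cn b} (hx : x ∈ D) =>
    cd_congr hD h l hx
  have w := fun (f g : Cn b → ℂ) (hf : ContDiffOn ℝ ∞ f D) (hg : ContDiffOn ℝ ∞ g D) =>
    hWIRT D hD f g hf hg
  have toC : ∀ f : Cn b → ℝ, ContDiffOn ℝ ∞ f D → ContDiffOn ℝ ∞ (fun y => ((f y : ℝ) : ℂ)) D :=
    fun f hf => ofRealCLM.contDiff.comp_contDiffOn hf
  -- smoothness
  have sWr : ContDiffOn ℝ ∞ W D := hμ.mul (contDiffOn_const.mul hu).exp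
  have sW := toC W sWr
  have sσ : ∀ I, ContDiffOn ℝ ∞ (fun y => sg V y I) D := fun I =>
    holo_contDiffOn_real hD (sg_holo hV I)
  have hW0 : ∀ y ∈ D, 0 < W y := fun y hy => mul_pos (hμ0 y hy) (Real.exp_pos _)
  have hWc : ∀ y ∈ D, ((W y : ℝ) : ℂ) ≠ 0 := fun y hy => by exact_mod_cast (hW0 y hy).ne'
  have sWσ : ∀ I, ContDiffOn ℝ ∞ (fun y => ((W y : ℝ) : ℂ) * sg V y I) D := fun I => sW.mul (sσ I)
  have sδ : ∀ J, ContDiffOn ℝ ∞ (fun y => dsg W V y J) D := by
    intro J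
    refine (sW.inv hWc).mul (ContDiffOn.sum fun i _ => ?_)
    exact ((w _ _ (sWσ (Fin.cons i J)) (sWσ (Fin.cons i J))).1 i).1
  have sδc : ∀ J, ContDiffOn ℝ ∞ (fun y => conj (dsg W V y J)) D := fun J =>
    Complex.conjCLE.contDiff.comp_contDiffOn (sδ J)
  have sΘ := (hLMF D hD Φ hΦ).1
  have sT : ∀ J L : Fin p → Fin b, ContDiffOn ℝ ∞ (fun y => thp (LM Φ y) J L) D := fun J L =>
    contDiffOn_prod fun s _ => sΘ (J s) (L s)
  have stf : ∀ i, ContDiffOn ℝ ∞ (fun y => tf (LM Φ y) (fun J => sg V y (Fin.cons i J))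
      (dsg W V y)) D := fun i =>
    ContDiffOn.sum fun J _ => ContDiffOn.sum fun L _ => ((sT J L).mul (sσ _)).mul (sδc L)
  have sYB : ContDiffOn ℝ ∞ (YB Φ μ u V) D := by
    refine contDiffOn_pi.2 fun i => ?_
    have h1 : ContDiffOn ℝ ∞ (fun y => ((Real.exp (-2 * u y) : ℝ) : ℂ)) D :=
      toC _ (contDiffOn_const.mul hu).exp
    exact h1.mul (stf i)
  refine ⟨sYB, fun z hz => ?_⟩
  -- the logarithm of the weight
  set ℓ : Cn b → ℝ := fun y => Real.log (μ y) + (-2) * u y with hℓ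
  have slog : ContDiffOn ℝ ∞ (fun y => Real.log (μ y)) D := hμ.log fun y hy => (hμ0 y hy).ne'
  have sℓr : ContDiffOn ℝ ∞ ℓ D := slog.add (contDiffOn_const.mul hu)
  have sℓ := toC ℓ sℓr
  have hWℓ : ∀ y ∈ D, W y = Real.exp (ℓ y) := by
    intro y hy
    rw [hℓ, hW]
    simp only
    rw [Real.exp_add, Real.exp_log (hμ0 y hy)]
  have hcdW : ∀ y ∈ D, ∀ k, cd k (fun y => ((W y : ℝ) : ℂ)) y =
      ((W y : ℝ) : ℂ) * cd k (fun y => ((ℓ y : ℝ) : ℂ)) y := by
    intro y hy k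
    rw [(hcg (fun y hy => by rw [hWℓ y hy]) k hy).1, cd_exp, hWℓ y hy]
    exact (sℓr.contDiffAt (hD.mem_nhds hy)).differentiableAt (by simp)
  have hδ : ∀ J, ∀ y ∈ D, dsg W V y J = ∑ k, (cd k (fun y => ((ℓ y : ℝ) : ℂ)) y *
      sg V y (Fin.cons k J) + cd k (fun y => sg V y (Fin.cons k J)) y) := by
    intro J y hy
    rw [dsg, Finset.mul_sum]
    refine Finset.sum_congr rfl fun k _ => ?_
    rw [((w _ _ sW (sσ (Fin.cons k J))).2.2.1 k y hy).1, hcdW y hy k]
    field_simp [hWc y hy]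
    ring
  have hcdbσ : ∀ I, ∀ y ∈ D, ∀ i, cdb i (fun y => sg V y I) y = 0 := fun I y hy i =>
    (w _ _ (sσ I) (sσ I)).2.2.2.2.2.2 (sg_holo hV I) i y hy
  have hcomm : ∀ (f : Cn b → ℂ), ContDiffOn ℝ ∞ f D → ∀ l m, ∀ x ∈ D,
      cd l (cdb m f) x = cdb m (cd l f) x :=
    fun f hf l m x hx => ((w f f hf hf).2.2.2.2.1 l m x hx).2.2
  have hLMu : ∀ k i, LM u z k i = 0 := by
    refine fun k i => hermi_zero (LM u z) (fun e => ?_) k i
    rw [← (hLMF D hD u hu).2.2.1 z hz e, hlev z hz e, ofReal_zero]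
  have hLMℓ : ∀ k i, LM ℓ z k i = LM (fun y => Real.log (μ y)) z k i := by
    intro k i
    have e1 : ∀ y ∈ D, cdb i (fun y => ((ℓ y : ℝ) : ℂ)) y =
        cdb i (fun y => ((Real.log (μ y) : ℝ) : ℂ)) y + (-2) * cdb i (fun y => ((u y : ℝ) : ℂ)) y := by
      intro y hy
      have e2 := (hcg (f := fun y => ((ℓ y : ℝ) : ℂ))
        (g := fun y => ((Real.log (μ y) : ℝ) : ℂ) + (-2) * ((u y : ℝ) : ℂ))
        (fun y _ => by rw [hℓ]; push_cast; ring) i hy).2
      have e3 := ((w _ (fun y => (-2) * ((u y : ℝ) : ℂ)) (toC _ slog)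
        (contDiffOn_const.mul (toC u hu))).2.1 i y hy).2
      have e4 := ((w (fun _ => (-2 : ℂ)) _ contDiffOn_const (toC u hu)).2.2.1 i y hy).2
      rw [e2, e3, e4, (cd_const (-2) i y).2]
      ring
    have e5 := (hcg e1 k hz).1
    have sb := fun (f : Cn b → ℂ) (hf : ContDiffOn ℝ ∞ f D) => ((w f f hf hf).1 i).2
    have e6 := ((w _ (fun y => (-2) * cdb i (fun y => ((u y : ℝ) : ℂ)) y) (sb _ (toC _ slog))
        (contDiffOn_const.mul (sb _ (toC u hu)))).2.1 k z hz).1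
    have e7 := ((w (fun _ => (-2 : ℂ)) _ contDiffOn_const (sb _ (toC u hu))).2.2.1 k z hz).1
    have e8 := hLMu k i
    change cd k (cdb i (fun y => ((u y : ℝ) : ℂ))) z = 0 at e8
    change cd k (cdb i (fun y => ((ℓ y : ℝ) : ℂ))) z = cd k (cdb i (fun y =>
      ((Real.log (μ y) : ℝ) : ℂ))) z
    rw [e5, e6, e7, (cd_const (-2) k z).1]
    have e9 : cd k (fun y => cdb i (fun y => ((u y : ℝ) : ℂ)) y) z = 0 := e8
    rw [e9]
    ring
  -- the derivative of the divergence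
  have hB : ∀ (i : Fin b) (L : Fin p → Fin b), cdb i (fun y => dsg W V y L) z =
      ∑ k, LM Φ z k i * sg V z (Fin.cons k L) := by
    intro i L
    have sa := fun (k : Fin b) (f : Cn b → ℂ) (hf : ContDiffOn ℝ ∞ f D) => ((w f f hf hf).1 k).1
    rw [(hcg (hδ L) i hz).2, (hsum Finset.univ _ (fun k _ => ((sa k _ sℓ).mul (sσ _)).add
      (sa k _ (sσ _))) i hz).2]
    have e1 : ∀ k, cdb i (fun y => cd k (fun y => ((ℓ y : ℝ) : ℂ)) y * sg V y (Fin.cons k L) +
        cd k (fun y => sg V y (Fin.cons k L)) y) z = sg V z (Fin.cons k L) * LM ℓ z k i := by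
      intro k
      have e2 := ((w _ _ ((sa k _ sℓ).mul (sσ (Fin.cons k L))) (sa k _ (sσ (Fin.cons k L)))).2.1
        i z hz).2
      have e3 := ((w _ _ (sa k _ sℓ) (sσ (Fin.cons k L))).2.2.1 i z hz).2
      have e4 : cdb i (cd k (fun y => sg V y (Fin.cons k L))) z = 0 := by
        rw [← hcomm _ (sσ (Fin.cons k L)) k i z hz,
          (hcg (fun y hy => hcdbσ (Fin.cons k L) y hy i) k hz).1, (cd_const 0 k z).1]
      have e5 : cdb i (cd k (fun y => ((ℓ y : ℝ) : ℂ))) z = LM ℓ z k i := by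
        rw [← hcomm _ sℓ k i z hz]
        rfl
      rw [e2, e3, hcdbσ _ z hz i]
      have e6 : cdb i (fun y => cd k (fun y => sg V y (Fin.cons k L)) y) z = 0 := e4
      have e7 : cdb i (fun y => cd k (fun y => ((ℓ y : ℝ) : ℂ)) y) z = LM ℓ z k i := e5
      rw [e6, e7]
      ring
    simp only [e1, hLMℓ, hLM z hz]
    have e8 := tau_sg V z (fderiv ℂ τ z) (fun k => hτV k z hz) L
    have e9 : ∀ k, sg V z (Fin.cons k L) * (LM Φ z k i - fderiv ℂ τ z (Pi.single k 1) *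
        conj (fderiv ℂ τ z (Pi.single i 1)) / (((τ z).im ^ 2 : ℝ) : ℂ)) =
        LM Φ z k i * sg V z (Fin.cons k L) - conj (fderiv ℂ τ z (Pi.single i 1)) /
        (((τ z).im ^ 2 : ℝ) : ℂ) * (fderiv ℂ τ z (Pi.single k 1) * sg V z (Fin.cons k L)) := by
      intro k
      ring
    simp only [e9]
    rw [Finset.sum_sub_distrib, ← Finset.mul_sum, e8, mul_zero, sub_zero]
  have hherm := (hLMF D hD Φ hΦ).2.1 z hz
  have hC : ∀ (i : Fin b) (L : Fin p → Fin b), cd i (fun y => conj (dsg W V y L)) z =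
      ∑ k, LM Φ z i k * conj (sg V z (Fin.cons k L)) := by
    intro i L
    rw [((w _ _ (sδ L) (sδ L)).2.2.2.1 i z hz).1, hB, map_sum]
    refine Finset.sum_congr rfl fun k _ => ?_
    rw [map_mul, ← hherm.apply i k]
    rfl
  have hT : ∀ (i : Fin b) (J L : Fin p → Fin b), cd i (fun y => thp (LM Φ y) J L) z =
      ∑ s, cd i (fun y => LM Φ y (J s) (L s)) z *
        ∏ s' ∈ Finset.univ.erase s, LM Φ z (J s') (L s') := by
    intro i J L
    exact cd_prod i (fun s y => LM Φ y (J s) (L s)) z fun s =>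
      ((sΘ (J s) (L s)).contDiffAt (hD.mem_nhds hz)).differentiableAt (by simp)
  have hvan : ∀ L : Fin p → Fin b, ∑ i, ∑ J : Fin p → Fin b, sg V z (Fin.cons i J) *
      cd i (fun y => thp (LM Φ y) J L) z = 0 := by
    intro L
    simp only [hT, Finset.mul_sum]
    have e1 : ∀ i : Fin b, ∑ J : Fin p → Fin b, ∑ s, sg V z (Fin.cons i J) *
        (cd i (fun y => LM Φ y (J s) (L s)) z *
          ∏ s' ∈ Finset.univ.erase s, LM Φ z (J s') (L s')) =
        ∑ s, ∑ J : Fin p → Fin b, sg V z (Fin.cons i J) *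
        (cd i (fun y => LM Φ y (J s) (L s)) z *
          ∏ s' ∈ Finset.univ.erase s, LM Φ z (J s') (L s')) := fun i => Finset.sum_comm
    simp only [e1]
    rw [Finset.sum_comm]
    refine Finset.sum_eq_zero fun s _ => ?_
    exact van s (sg V z) (sg_swap V z s) (LM Φ z) (fun i j l => cd i (fun y => LM Φ y j l) z)
      (fun i j l => ((hLMF D hD Φ hΦ).2.2.2 z hz j l i).1) L
  have hdiv : ∀ J : Fin p → Fin b, ∑ i, cd i (fun y => ((W y : ℝ) : ℂ) * sg V y (Fin.cons i J)) z =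
      ((W z : ℝ) : ℂ) * dsg W V z J := by
    intro J
    rw [dsg, mul_inv_cancel_left₀ (hWc z hz)]
  -- the field
  have hY : ∀ i, ∀ y ∈ D, (μ y : ℂ) * YB Φ μ u V y i = ∑ J : Fin p → Fin b, ∑ L : Fin p → Fin b,
      (((W y : ℝ) : ℂ) * sg V y (Fin.cons i J)) * (thp (LM Φ y) J L * conj (dsg W V y L)) := by
    intro i y _
    rw [YB, tf, ← mul_assoc, Finset.mul_sum]
    refine Finset.sum_congr rfl fun J _ => ?_
    rw [Finset.mul_sum]
    refine Finset.sum_congr rfl fun L _ => ?_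
    rw [hW]
    push_cast
    ring
  have hcd : ∀ i, cd i (fun y => (μ y : ℂ) * YB Φ μ u V y i) z =
      ∑ J : Fin p → Fin b, ∑ L : Fin p → Fin b,
      (((W z : ℝ) : ℂ) * sg V z (Fin.cons i J) * (thp (LM Φ z) J L *
          (∑ k, LM Φ z i k * conj (sg V z (Fin.cons k L))) +
        conj (dsg W V z L) * cd i (fun y => thp (LM Φ y) J L) z) +
      thp (LM Φ z) J L * conj (dsg W V z L) *
        cd i (fun y => ((W y : ℝ) : ℂ) * sg V y (Fin.cons i J)) z) := by
    intro i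
    have sJL : ∀ J L : Fin p → Fin b, ContDiffOn ℝ ∞ (fun y => (((W y : ℝ) : ℂ) *
        sg V y (Fin.cons i J)) * (thp (LM Φ y) J L * conj (dsg W V y L))) D := fun J L =>
      (sWσ _).mul ((sT J L).mul (sδc L))
    rw [(hcg (hY i) i hz).1, (hsum Finset.univ _ (fun J _ => ContDiffOn.sum fun L _ => sJL J L)
      i hz).1]
    refine Finset.sum_congr rfl fun J _ => ?_
    rw [(hsum Finset.univ _ (fun L _ => sJL J L) i hz).1]
    refine Finset.sum_congr rfl fun L _ => ?_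
    have e1 := ((w _ _ (sWσ (Fin.cons i J)) ((sT J L).mul (sδc L))).2.2.1 i z hz).1
    have e2 := ((w _ _ (sT J L) (sδc L)).2.2.1 i z hz).1
    rw [e1, e2, hC]
  simp only [hcd]
  -- the three terms
  have t1 : ∑ i, ∑ J : Fin p → Fin b, ∑ L : Fin p → Fin b, thp (LM Φ z) J L *
      conj (dsg W V z L) * cd i (fun y => ((W y : ℝ) : ℂ) * sg V y (Fin.cons i J)) z =
      ((W z : ℝ) : ℂ) * tf (LM Φ z) (dsg W V z) (dsg W V z) := by
    rw [Finset.sum_comm, tf, Finset.mul_sum]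
    refine Finset.sum_congr rfl fun J _ => ?_
    rw [Finset.sum_comm, Finset.mul_sum]
    refine Finset.sum_congr rfl fun L _ => ?_
    rw [← Finset.mul_sum, hdiv]
    ring
  have t2 : ∑ i, ∑ J : Fin p → Fin b, ∑ L : Fin p → Fin b, ((W z : ℝ) : ℂ) *
      sg V z (Fin.cons i J) * (conj (dsg W V z L) * cd i (fun y => thp (LM Φ y) J L) z) = 0 := by
    have e1 : ∀ i : Fin b, ∑ J : Fin p → Fin b, ∑ L : Fin p → Fin b, ((W z : ℝ) : ℂ) *
      sg V z (Fin.cons i J) * (conj (dsg W V z L) * cd i (fun y => thp (LM Φ y) J L) z) =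
      ∑ L : Fin p → Fin b, ∑ J : Fin p → Fin b, ((W z : ℝ) : ℂ) *
      sg V z (Fin.cons i J) * (conj (dsg W V z L) * cd i (fun y => thp (LM Φ y) J L) z) :=
      fun i => Finset.sum_comm
    simp only [e1]
    rw [Finset.sum_comm]
    refine Finset.sum_eq_zero fun L _ => ?_
    have e2 : ∀ (i : Fin b) (J : Fin p → Fin b), ((W z : ℝ) : ℂ) *
      sg V z (Fin.cons i J) * (conj (dsg W V z L) * cd i (fun y => thp (LM Φ y) J L) z) =
      (((W z : ℝ) : ℂ) * conj (dsg W V z L)) * (sg V z (Fin.cons i J) *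
        cd i (fun y => thp (LM Φ y) J L) z) := fun i J => by ring
    simp only [e2, ← Finset.mul_sum]
    rw [hvan L, mul_zero]
  have t3 : ∑ i, ∑ J : Fin p → Fin b, ∑ L : Fin p → Fin b, ((W z : ℝ) : ℂ) *
      sg V z (Fin.cons i J) * (thp (LM Φ z) J L *
          (∑ k, LM Φ z i k * conj (sg V z (Fin.cons k L)))) =
      ((W z : ℝ) : ℂ) * tf (LM Φ z) (sg V z) (sg V z) := by
    rw [tf, sum_cons, Finset.mul_sum]
    refine Finset.sum_congr rfl fun i _ => ?_
    rw [Finset.mul_sum]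
    refine Finset.sum_congr rfl fun J _ => ?_
    rw [sum_cons, Finset.sum_comm, Finset.mul_sum]
    refine Finset.sum_congr rfl fun L _ => ?_
    rw [Finset.mul_sum, Finset.mul_sum, Finset.mul_sum]
    refine Finset.sum_congr rfl fun k _ => ?_
    have e1 : thp (LM Φ z) (Fin.cons i J) (Fin.cons k L) =
        LM Φ z i k * thp (LM Φ z) J L := by
      simp only [thp]
      rw [Fin.prod_univ_succ]
      simp only [Fin.cons_zero, Fin.cons_succ]
    rw [e1]
    ring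
  have t4 : ∑ i, ∑ J : Fin p → Fin b, ∑ L : Fin p → Fin b,
      (((W z : ℝ) : ℂ) * sg V z (Fin.cons i J) * (thp (LM Φ z) J L *
          (∑ k, LM Φ z i k * conj (sg V z (Fin.cons k L))) +
        conj (dsg W V z L) * cd i (fun y => thp (LM Φ y) J L) z) +
      thp (LM Φ z) J L * conj (dsg W V z L) *
        cd i (fun y => ((W y : ℝ) : ℂ) * sg V y (Fin.cons i J)) z) =
      ((W z : ℝ) : ℂ) * tf (LM Φ z) (sg V z) (sg V z) + 0 +
        ((W z : ℝ) : ℂ) * tf (LM Φ z) (dsg W V z) (dsg W V z) := by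
    rw [← t1, ← t2, ← t3]
    simp only [← Finset.sum_add_distrib]
    refine Finset.sum_congr rfl fun i _ => Finset.sum_congr rfl fun J _ =>
      Finset.sum_congr rfl fun L _ => by ring
  rw [t4]
  have hμc : (μ z : ℂ) ≠ 0 := by exact_mod_cast (hμ0 z hz).ne'
  have hWz : ((W z : ℝ) : ℂ) = (μ z : ℂ) * ((Real.exp (-2 * u z) : ℝ) : ℂ) := by
    rw [hW]
    push_cast
    ring
  rw [hWz]
  field_simp
  ring

end Bid

/-- BID. -/
theorem bid (hWIRT : S_WIRT) (hLMF : S_LMF) : S_BID := by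
  intro b p D hD Φ μ u τ V hΦ hμ hu hμ0 _ hV hlev hτV hLM
  exact Bid.main hWIRT hLMF hD hΦ hμ hu hμ0 hV hlev hτV hLM

end Pool.Agent.Helper53.SP
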