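import Pool.Agent.Helper10.SP.GoalsC

/-! # Packet SP-RESC, part A: affine changes of coordinates, the identity theorem -/

open Complex Metric Set Filter Topology MeasureTheory
open scoped ContDiff ComplexConjugate ComplexOrder Manifold

namespace Pool.Agent.Helper53.SP

open Pool.Agent.Helper95.Lin Pool.Agent.Helper16.Abund Pool.Agent.Helper92.Orb
open Pool.Agent.Helper10.SP

variable {b : ℕ}

theorem base_pt (z : Cn b) (w : ℂ) : base (pt z w) = z := by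
  funext i
  simp [base, pt]

theorem lc_pt (z : Cn b) (w : ℂ) : lc (pt z w) = w := by
  simp [lc, pt]

theorem pt_eta (x : Cn (b + 1)) : pt (base x) (lc x) = x := by
  funext j
  refine Fin.addCases (fun i => ?_) (fun i => ?_) j
  · simp [base, pt]
  · have : i = 0 := Subsingleton.elim _ _
    subst this
    simp [lc, pt]

/-- The affine map `z ↦ p + ρ (z - q)`. -/
noncomputable def Af (p q : Cn b) (ρ : ℝ) (z : Cn b) : Cn b := p + (ρ : ℂ) • (z - q)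

theorem Af_inv (p q : Cn b) {ρ : ℝ} (hρ : ρ ≠ 0) (z : Cn b) : Af q p ρ⁻¹ (Af p q ρ z) = z := by
  have h : (ρ : ℂ) ≠ 0 := by exact_mod_cast hρ
  simp only [Af, add_sub_cancel_left, smul_smul]
  rw [ofReal_inv, inv_mul_cancel₀ h, one_smul]
  abel

theorem Af_inv' (p q : Cn b) {ρ : ℝ} (hρ : ρ ≠ 0) (z : Cn b) : Af p q ρ (Af q p ρ⁻¹ z) = z := by
  have := Af_inv q p (inv_ne_zero hρ) z
  rwa [inv_inv] at this

theorem Af_sub (p q : Cn b) (ρ : ℝ) (x y : Cn b) :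
    Af p q ρ x - Af p q ρ y = (ρ : ℂ) • (x - y) := by
  simp only [Af]
  module

theorem Af_center (p q : Cn b) (ρ : ℝ) : Af p q ρ q = p := by simp [Af]

theorem norm_Af_sub (p q : Cn b) {ρ : ℝ} (hρ : 0 < ρ) (x y : Cn b) :
    ‖Af p q ρ x - Af p q ρ y‖ = ρ * ‖x - y‖ := by
  rw [Af_sub, norm_smul, Complex.norm_of_nonneg hρ.le]

theorem dist_Af (p q : Cn b) {ρ : ℝ} (hρ : 0 < ρ) (x y : Cn b) :
    dist (Af p q ρ x) (Af p q ρ y) = ρ * dist x y := by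
  rw [dist_eq_norm, dist_eq_norm, norm_Af_sub p q hρ]

theorem Af_mem_ball (p q : Cn b) {ρ : ℝ} (hρ : 0 < ρ) (r : ℝ) (z : Cn b) :
    Af p q ρ z ∈ ball p (ρ * r) ↔ z ∈ ball q r := by
  rw [mem_ball, mem_ball]
  nth_rewrite 2 [← Af_center p q ρ]
  rw [dist_Af p q hρ]
  exact mul_lt_mul_iff_right₀ hρ

theorem differentiable_Af (p q : Cn b) (ρ : ℝ) : Differentiable ℂ (Af p q ρ) := by
  unfold Af
  fun_prop

theorem hasFDerivAt_Af (p q : Cn b) (ρ : ℝ) (z : Cn b) :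
    HasFDerivAt (Af p q ρ) ((ρ : ℂ) • ContinuousLinearMap.id ℂ (Cn b)) z := by
  unfold Af
  exact (((hasFDerivAt_id z).sub_const q).const_smul (ρ : ℂ)).const_add p

theorem contDiff_Af (p q : Cn b) (ρ : ℝ) : ContDiff ℝ ∞ (Af p q ρ) := by
  unfold Af
  fun_prop

/-- The identity theorem on a ball. -/
theorem eqOn_ball {E : Type*} [NormedAddCommGroup E] [NormedSpace ℂ E] [CompleteSpace E]
    {f f' : Cn b → E} {z₀ : Cn b} {r : ℝ}
    (hf : DifferentiableOn ℂ f (ball z₀ r)) (hf' : DifferentiableOn ℂ f' (ball z₀ r))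
    {y : Cn b} (hy : y ∈ ball z₀ r) (h : f =ᶠ[𝓝 y] f') : EqOn f f' (ball z₀ r) := by
  intro x hx
  let L : ℂ → Cn b := fun s => y + s • (x - y)
  have hLd : Differentiable ℂ L := by
    intro s
    exact (differentiableAt_id.smul_const (x - y)).const_add y
  let S : Set ℂ := L ⁻¹' ball z₀ r
  have hSo : IsOpen S := isOpen_ball.preimage hLd.continuous
  have hSc : Convex ℝ S := by
    intro s hs t ht a c ha hc hac
    have h1 : L (a • s + c • t) = a • L s + c • L t := by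
      simp only [L]
      have : (a + c : ℝ) • y = y := by rw [hac, one_smul]
      calc y + (a • s + c • t) • (x - y) = (a + c : ℝ) • y + (a • s + c • t) • (x - y) := by
            rw [this]
        _ = a • (y + s • (x - y)) + c • (y + t • (x - y)) := by
            rw [add_smul, add_smul, smul_add, smul_add, smul_assoc, smul_assoc]
            abel
    change L (a • s + c • t) ∈ ball z₀ r
    rw [h1]
    exact convex_ball z₀ r hs ht ha hc hac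
  have h0 : (0 : ℂ) ∈ S := by
    change L 0 ∈ ball z₀ r
    simp only [L, zero_smul, add_zero]
    exact hy
  have h1 : (1 : ℂ) ∈ S := by
    change L 1 ∈ ball z₀ r
    simp only [L, one_smul, add_sub_cancel]
    exact hx
  have hL0 : L 0 = y := by simp [L]
  have hL1 : L 1 = x := by simp [L]
  have a1 : AnalyticOnNhd ℂ (f ∘ L) S :=
    (hf.comp hLd.differentiableOn fun s hs => hs).analyticOnNhd hSo
  have a2 : AnalyticOnNhd ℂ (f' ∘ L) S :=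
    (hf'.comp hLd.differentiableOn fun s hs => hs).analyticOnNhd hSo
  have h2 : (f ∘ L) =ᶠ[𝓝 0] (f' ∘ L) := by
    have hc : Tendsto L (𝓝 0) (𝓝 y) := by
      have := hLd.continuous.tendsto 0
      rwa [hL0] at this
    exact hc.eventually h
  have h3 := a1.eqOn_of_preconnected_of_eventuallyEq a2 hSc.isPreconnected h0 h2 h1
  simpa only [Function.comp, hL1] using h3

/-- Two maps of a pseudogroup on a ball which agree near a point agree. -/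
theorem tri_eqOn_ball {t t' : Tri b} {z₀ : Cn b} {r : ℝ} (ht : t.HolOn (ball z₀ r))
    (ht' : t'.HolOn (ball z₀ r)) {U : Set (Cn b)} (hU : IsOpen U) {y : Cn b} (hyU : y ∈ U)
    (hy : y ∈ ball z₀ r) (h : t.EqOn t' U) : t.EqOn t' (ball z₀ r) := by
  have hN := hU.mem_nhds hyU
  have e1 : EqOn t.g t'.g (ball z₀ r) := eqOn_ball ht.1 ht'.1 hy
    (Filter.eventually_of_mem hN fun z hz => (h z hz).1)
  have e2 : EqOn t.a t'.a (ball z₀ r) := eqOn_ball ht.2.1 ht'.2.1 hy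
    (Filter.eventually_of_mem hN fun z hz => (h z hz).2.1)
  have e3 : EqOn t.β t'.β (ball z₀ r) := eqOn_ball ht.2.2 ht'.2.2 hy
    (Filter.eventually_of_mem hN fun z hz => (h z hz).2.2)
  exact fun z hz => ⟨e1 hz, e2 hz, e3 hz⟩

/-! ## Transfer of maps of the pseudogroups -/

/-- The data of the passage to small balls. -/
structure Sc {b N N' : ℕ} {M : Type*} (c : Fin N → Cn b) (c' p : Fin N' → Cn b) (ρ R' : ℝ)
    (κ : Cn b → Cn b) (E E' : Cn (b + 1) → M) : Prop where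
  ρpos : 0 < ρ
  R'pos : 0 < R'
  ρR : ρ * R' ≤ 1
  sep : ∀ i j, i ≠ j → 10 * R' ≤ ‖c' i - c' j‖
  pmem : ∀ j, p j ∈ ⋃ i, closedBall (c i) 1
  hκ : ∀ j, ∀ z ∈ ball (c' j) R', κ z = Af (p j) (c' j) ρ z
  hE : ∀ x, E' x = E (pt (κ (base x)) (lc x))

theorem isOpen_Bd {N : ℕ} (c : Fin N → Cn b) (r : ℝ) : IsOpen (Bd c r) :=
  isOpen_iUnion fun _ => isOpen_ball

theorem ball_sub_Bd {N : ℕ} (c : Fin N → Cn b) (r : ℝ) (i : Fin N) : ball (c i) r ⊆ Bd c r :=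
  subset_iUnion (fun i => ball (c i) r) i

namespace Sc

variable {N N' : ℕ} {M : Type*} {c : Fin N → Cn b} {c' p : Fin N' → Cn b} {ρ R' : ℝ}
  {κ : Cn b → Cn b} {E E' : Cn (b + 1) → M}

theorem disj (h : Sc c c' p ρ R' κ E E') {i j : Fin N'} {z : Cn b} (hi : z ∈ ball (c' i) R')
    (hj : z ∈ ball (c' j) R') : i = j := by
  by_contra hne
  have h1 := h.sep i j hne
  rw [← dist_eq_norm] at h1
  have h2 : dist (c' i) (c' j) ≤ dist z (c' i) + dist z (c' j) := by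
    rw [dist_comm z (c' i)]
    exact dist_triangle _ _ _
  rw [mem_ball] at hi hj
  linarith [h.R'pos]

/-- A small ball about `p j` is over `Bd c 2`. -/
theorem pball (h : Sc c c' p ρ R' κ E E') (j : Fin N') : ball (p j) (ρ * R') ⊆ Bd c 2 := by
  intro z hz
  obtain ⟨i, hi⟩ := mem_iUnion.1 (h.pmem j)
  refine mem_iUnion.2 ⟨i, ?_⟩
  rw [mem_ball] at hz ⊢
  rw [mem_closedBall] at hi
  have := dist_triangle z (p j) (c i)
  linarith [h.ρR]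

theorem Bd_mono {N : ℕ} (c : Fin N → Cn b) {r s : ℝ} (hrs : r ≤ s) : Bd c r ⊆ Bd c s :=
  iUnion_mono fun _ => ball_subset_ball hrs

/-- The map `t` in the coordinates of the small balls `j`, `l`. -/
noncomputable def up (p c' : Fin N' → Cn b) (ρ : ℝ) (j l : Fin N') (t : Tri b) : Tri b :=
  ⟨fun z => Af (c' l) (p l) ρ⁻¹ (t.g (Af (p j) (c' j) ρ z)), fun z => t.a (Af (p j) (c' j) ρ z),
    fun z => t.β (Af (p j) (c' j) ρ z)⟩

/-- The inverse of `up`. -/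
noncomputable def dn (p c' : Fin N' → Cn b) (ρ : ℝ) (j l : Fin N') (t : Tri b) : Tri b :=
  ⟨fun z => Af (p l) (c' l) ρ (t.g (Af (c' j) (p j) ρ⁻¹ z)),
    fun z => t.a (Af (c' j) (p j) ρ⁻¹ z), fun z => t.β (Af (c' j) (p j) ρ⁻¹ z)⟩

variable {G : Type*} [Group G] [MulAction G M]

/-- New maps come from old ones. -/
theorem pmap_dn (h : Sc c c' p ρ R' κ E E') {U : Set (Cn b)} {t : Tri b}
    (ht : PMap (Bd c' R') (RelE (G := G) c' R' E') U t) {V : Set (Cn b)} (hV : IsOpen V)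
    (hVU : V ⊆ U) {j l : Fin N'} (hVj : V ⊆ ball (c' j) R') (hVl : MapsTo t.g V (ball (c' l) R')) :
    PMap (Bd c 5) (RelE (G := G) c 5 E) (Af (c' j) (p j) ρ⁻¹ ⁻¹' V) (dn p c' ρ j l t) := by
  obtain ⟨hUo, hUD, hg, ha, hβ, hmem, γ, hγ⟩ := ht
  have hρ := h.ρpos
  have hρ0 : ρ ≠ 0 := hρ.ne'
  have hAd := differentiable_Af (c' j) (p j) ρ⁻¹
  have hmaps : MapsTo (Af (c' j) (p j) ρ⁻¹) (Af (c' j) (p j) ρ⁻¹ ⁻¹' V) U := fun z hz => hVU hz
  have h5 : ∀ j, ball (p j) (ρ * R') ⊆ Bd c 5 := fun j =>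
    (h.pball j).trans (Bd_mono c (by norm_num))
  have hsrc : ∀ z ∈ Af (c' j) (p j) ρ⁻¹ ⁻¹' V, z ∈ Bd c 5 := by
    intro z hz
    apply h5 j
    have := (Af_mem_ball (p j) (c' j) hρ R' _).2 (hVj hz)
    rwa [Af_inv' _ _ hρ0] at this
  have htgt : ∀ z ∈ Af (c' j) (p j) ρ⁻¹ ⁻¹' V, (dn p c' ρ j l t).g z ∈ Bd c 5 := by
    intro z hz
    apply h5 l
    exact (Af_mem_ball (p l) (c' l) hρ R' _).2 (hVl hz)
  refine ⟨hV.preimage hAd.continuous, hsrc, ?_, ha.comp hAd.differentiableOn hmaps,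
    hβ.comp hAd.differentiableOn hmaps, fun z hz => ⟨htgt z hz, (hmem _ (hVU hz)).2⟩, γ, ?_⟩
  · exact (differentiable_Af (p l) (c' l) ρ).comp_differentiableOn
      (hg.comp hAd.differentiableOn hmaps)
  · intro z hz w
    refine ⟨?_, ?_, ?_⟩
    · change base (pt z w) ∈ Bd c 5
      rw [base_pt]
      exact hsrc z hz
    · change base (pt _ _) ∈ Bd c 5
      rw [base_pt]
      exact htgt z hz
    · have h1 := (hγ _ (hVU hz) w).2.2
      rw [h.hE, h.hE, base_pt, base_pt, lc_pt, lc_pt, h.hκ j _ (hVj hz), h.hκ l _ (hVl hz),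
        Af_inv' _ _ hρ0] at h1
      exact h1

/-- Old maps give new ones. -/
theorem pmap_up (h : Sc c c' p ρ R' κ E E') {U : Set (Cn b)} {t : Tri b}
    (ht : PMap (Bd c 5) (RelE (G := G) c 5 E) U t) {j l : Fin N'}
    (hVj : U ⊆ ball (p j) (ρ * R')) (hVl : MapsTo t.g U (ball (p l) (ρ * R'))) :
    PMap (Bd c' R') (RelE (G := G) c' R' E') (Af (p j) (c' j) ρ ⁻¹' U) (up p c' ρ j l t) := by
  obtain ⟨hUo, hUD, hg, ha, hβ, hmem, γ, hγ⟩ := ht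
  have hρ := h.ρpos
  have hρ0 : ρ ≠ 0 := hρ.ne'
  have hAd := differentiable_Af (p j) (c' j) ρ
  have hmaps : MapsTo (Af (p j) (c' j) ρ) (Af (p j) (c' j) ρ ⁻¹' U) U := fun z hz => hz
  have hsrc' : ∀ z ∈ Af (p j) (c' j) ρ ⁻¹' U, z ∈ ball (c' j) R' := fun z hz =>
    (Af_mem_ball (p j) (c' j) hρ R' z).1 (hVj hz)
  have hsrc : ∀ z ∈ Af (p j) (c' j) ρ ⁻¹' U, z ∈ Bd c' R' := fun z hz =>
    ball_sub_Bd c' R' j (hsrc' z hz)
  have htgt' : ∀ z ∈ Af (p j) (c' j) ρ ⁻¹' U, (up p c' ρ j l t).g z ∈ ball (c' l) R' := by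
    intro z hz
    refine (Af_mem_ball (p l) (c' l) hρ R' _).1 ?_
    change Af (p l) (c' l) ρ (Af (c' l) (p l) ρ⁻¹ _) ∈ _
    rw [Af_inv' _ _ hρ0]
    exact hVl hz
  have htgt : ∀ z ∈ Af (p j) (c' j) ρ ⁻¹' U, (up p c' ρ j l t).g z ∈ Bd c' R' := fun z hz =>
    ball_sub_Bd c' R' l (htgt' z hz)
  refine ⟨hUo.preimage hAd.continuous, hsrc, ?_, ha.comp hAd.differentiableOn hmaps,
    hβ.comp hAd.differentiableOn hmaps, fun z hz => ⟨htgt z hz, (hmem _ hz).2⟩, γ, ?_⟩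
  · exact (differentiable_Af (c' l) (p l) ρ⁻¹).comp_differentiableOn
      (hg.comp hAd.differentiableOn hmaps)
  · intro z hz w
    refine ⟨?_, ?_, ?_⟩
    · change base (pt z w) ∈ Bd c' R'
      rw [base_pt]
      exact hsrc z hz
    · change base (pt _ _) ∈ Bd c' R'
      rw [base_pt]
      exact htgt z hz
    · have h1 := (hγ _ hz w).2.2
      rw [h.hE, h.hE, base_pt, base_pt, lc_pt, lc_pt, h.hκ j _ (hsrc' z hz),
        h.hκ l _ (htgt' z hz)]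
      change _ = E (pt (Af (p l) (c' l) ρ (Af (c' l) (p l) ρ⁻¹ _)) _)
      rw [Af_inv' _ _ hρ0]
      exact h1

end Sc

/-! ## Extension of germs to the new balls -/

theorem Af_preimage_ball {b : ℕ} (p q : Cn b) {ρ : ℝ} (hρ : 0 < ρ) (r : ℝ) :
    Af q p ρ⁻¹ ⁻¹' ball q r = ball p (ρ * r) := by
  ext z
  have h := Af_mem_ball q p (inv_pos.2 hρ) (ρ * r) z
  rw [inv_mul_cancel_left₀ hρ.ne'] at h
  exact h

namespace Sc

variable {N N' : ℕ} {M : Type*} {c : Fin N → Cn b} {c' p : Fin N' → Cn b} {ρ R' : ℝ}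
  {κ : Cn b → Cn b} {E E' : Cn (b + 1) → M} {G : Type*} [Group G] [MulAction G M]

/-- A map on a ball has values in one ball. -/
theorem one_ball (h : Sc c c' p ρ R' κ E E') {t : Tri b} {z₀ : Cn b} {r : ℝ} (hr : 0 < r)
    (ht : PMap (Bd c' R') (RelE (G := G) c' R' E') (ball z₀ r) t) :
    ∃ l, MapsTo t.g (ball z₀ r) (ball (c' l) R') := by
  obtain ⟨l, hl⟩ := mem_iUnion.1 (ht.2.2.2.2.2.1 z₀ (mem_ball_self hr)).1
  refine ⟨l, mapsTo_iff_image_subset.2 ?_⟩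
  refine IsPreconnected.subset_left_of_subset_union (v := ⋃ i : {i // i ≠ l}, ball (c' i) R')
    isOpen_ball (isOpen_iUnion fun _ => isOpen_ball) ?_ ?_ ⟨t.g z₀, ⟨z₀, mem_ball_self hr, rfl⟩, hl⟩ ?_
  · rw [Set.disjoint_left]
    intro z hz hz'
    obtain ⟨⟨i, hi⟩, hz''⟩ := mem_iUnion.1 hz'
    exact hi (h.disj hz'' hz)
  · rintro _ ⟨z, hz, rfl⟩
    obtain ⟨i, hi⟩ := mem_iUnion.1 (ht.2.2.2.2.2.1 z hz).1
    by_cases hil : i = l
    · subst hil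
      exact Or.inl hi
    · exact Or.inr (mem_iUnion.2 ⟨⟨i, hil⟩, hi⟩)
  · exact (convex_ball z₀ r).isPreconnected.image _ ht.2.2.1.continuousOn

/-- Estimates for the maps on the new balls. -/
theorem big_key (h : Sc c c' p ρ R' κ E E') {δ C : ℝ}
    (hX : Ext5 c (PMap (Bd c 5) (RelE (G := G) c 5 E)) δ C) (hδ : 8 * ρ ≤ δ) (hR : 4 ≤ R')
    {j : Fin N'} {t : Tri b} (ht : PMap (Bd c' R') (RelE (G := G) c' R' E') (ball (c' j) 4) t)
    {x y : Cn b} (hx : x ∈ ball (c' j) 4) (hy : y ∈ ball (c' j) 4) :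
    ‖t.g x - t.g y‖ ≤ C * ‖x - y‖ ∧ (‖t.a x‖ ≤ C ∧ 1 ≤ C * ‖t.a x‖) ∧
      ‖t.β x‖ ≤ C * (1 + ‖t.β y‖) := by
  have hρ := h.ρpos
  have hρ0 : ρ ≠ 0 := hρ.ne'
  obtain ⟨l, hl⟩ := h.one_ball (by norm_num) ht
  have h4 : ball (c' j) 4 ⊆ ball (c' j) R' := ball_subset_ball hR
  have ht0 := h.pmap_dn ht isOpen_ball Subset.rfl h4 hl
  rw [Af_preimage_ball _ _ hρ] at ht0
  set t₀ := dn p c' ρ j l t with ht₀
  set x₀ := Af (p j) (c' j) ρ x with hx₀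
  set y₀ := Af (p j) (c' j) ρ y with hy₀
  have hx₀m : x₀ ∈ ball (p j) (ρ * 4) := (Af_mem_ball _ _ hρ _ _).2 hx
  have hy₀m : y₀ ∈ ball (p j) (ρ * 4) := (Af_mem_ball _ _ hρ _ _).2 hy
  have hgx : t₀.g x₀ = Af (p l) (c' l) ρ (t.g x) := by
    change Af (p l) (c' l) ρ (t.g (Af (c' j) (p j) ρ⁻¹ (Af (p j) (c' j) ρ x))) = _
    rw [Af_inv _ _ hρ0]
  have hgy : t₀.g y₀ = Af (p l) (c' l) ρ (t.g y) := by
    change Af (p l) (c' l) ρ (t.g (Af (c' j) (p j) ρ⁻¹ (Af (p j) (c' j) ρ y))) = _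
    rw [Af_inv _ _ hρ0]
  have hax : t₀.a x₀ = t.a x := by
    change t.a (Af (c' j) (p j) ρ⁻¹ (Af (p j) (c' j) ρ x)) = _
    rw [Af_inv _ _ hρ0]
  have hβx : t₀.β x₀ = t.β x := by
    change t.β (Af (c' j) (p j) ρ⁻¹ (Af (p j) (c' j) ρ x)) = _
    rw [Af_inv _ _ hρ0]
  have hβy : t₀.β y₀ = t.β y := by
    change t.β (Af (c' j) (p j) ρ⁻¹ (Af (p j) (c' j) ρ y)) = _
    rw [Af_inv _ _ hρ0]
  have h23 : Bd c 2 ⊆ Bd c 3 := Bd_mono c (by norm_num)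
  have hy3 : y₀ ∈ Bd c 3 := h23 (h.pball j (ball_subset_ball (by nlinarith) hy₀m))
  have hgy3 : t₀.g y₀ ∈ Bd c 3 := by
    rw [hgy]
    exact h23 (h.pball l ((Af_mem_ball _ _ hρ _ _).2 (hl hy)))
  obtain ⟨t₁, U₁, ht1, hU1, hyU1, hU1s, heq, hb, hlip⟩ := hX.2.2 y₀ hy3 _ t₀ ht0 hy₀m hgy3
  have hsub : ball (p j) (ρ * 4) ⊆ ball y₀ δ := by
    intro z hz
    rw [mem_ball] at hz hy₀m ⊢
    rw [dist_comm] at hy₀m
    linarith [dist_triangle z (p j) y₀]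
  have hall : t₁.EqOn t₀ (ball (p j) (ρ * 4)) := by
    refine tri_eqOn_ball ⟨ht1.2.2.1.mono hsub, ht1.2.2.2.1.mono hsub, ht1.2.2.2.2.1.mono hsub⟩
      ⟨ht0.2.2.1, ht0.2.2.2.1, ht0.2.2.2.2.1⟩ hU1 hyU1 hy₀m heq
  have ex := hall x₀ hx₀m
  have ey := hall y₀ hy₀m
  obtain ⟨-, b1, b2, b3⟩ := hb x₀ (hsub hx₀m)
  have b4 := hlip x₀ (hsub hx₀m) y₀ (hsub hy₀m)
  rw [ex.2.1, hax] at b1 b2
  rw [ex.2.2, ey.2.2, hβx, hβy] at b3
  rw [ex.1, ey.1, hgx, hgy, norm_Af_sub _ _ hρ, hx₀, hy₀, norm_Af_sub _ _ hρ] at b4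
  refine ⟨?_, ⟨b1, b2⟩, b3⟩
  have b5 : ρ * ‖t.g x - t.g y‖ ≤ ρ * (C * ‖x - y‖) := by
    calc ρ * ‖t.g x - t.g y‖ ≤ C * (ρ * ‖x - y‖) := b4
      _ = ρ * (C * ‖x - y‖) := by ring
  exact le_of_mul_le_mul_left b5 hρ

/-- Germs extend to the new balls. -/
theorem ext_new (h : Sc c c' p ρ R' κ E E') {δ C : ℝ}
    (hX : Ext5 c (PMap (Bd c 5) (RelE (G := G) c 5 E)) δ C) (hδ : 8 * ρ ≤ δ)
    (hR : 8 + 8 * C ≤ R') {j : Fin N'} {z : Cn b} (hz : z ∈ ball (c' j) 2) {U : Set (Cn b)}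
    {t : Tri b} (ht : PMap (Bd c' R') (RelE (G := G) c' R' E') U t) (hzU : z ∈ U)
    (htz : t.g z ∈ Bd c' 2) :
    ∃ t' U', PMap (Bd c' R') (RelE (G := G) c' R' E') (ball (c' j) 4) t' ∧ IsOpen U' ∧ z ∈ U' ∧
      U' ⊆ U ∧ t'.EqOn t U' := by
  have hρ := h.ρpos
  have hρ0 : ρ ≠ 0 := hρ.ne'
  have hC : 1 ≤ C := hX.2.1
  obtain ⟨l, hl⟩ := mem_iUnion.1 htz
  have hUo : IsOpen U := ht.1
  set V : Set (Cn b) := (U ∩ t.g ⁻¹' ball (c' l) R') ∩ ball (c' j) R' with hV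
  have hVo : IsOpen V := (ht.2.2.1.continuousOn.isOpen_inter_preimage hUo isOpen_ball).inter
    isOpen_ball
  have hVU : V ⊆ U := fun x hx => hx.1.1
  have hVj : V ⊆ ball (c' j) R' := fun x hx => hx.2
  have hVl : MapsTo t.g V (ball (c' l) R') := fun x hx => hx.1.2
  have hzV : z ∈ V := ⟨⟨hzU, ball_subset_ball (by linarith) hl⟩, ball_subset_ball (by linarith) hz⟩
  have ht0 := h.pmap_dn ht hVo hVU hVj hVl
  set t₀ := dn p c' ρ j l t with ht₀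
  set z₀ := Af (p j) (c' j) ρ z with hz₀
  have hz₀m : z₀ ∈ ball (p j) (ρ * 2) := (Af_mem_ball _ _ hρ _ _).2 hz
  have hgz : t₀.g z₀ = Af (p l) (c' l) ρ (t.g z) := by
    change Af (p l) (c' l) ρ (t.g (Af (c' j) (p j) ρ⁻¹ (Af (p j) (c' j) ρ z))) = _
    rw [Af_inv _ _ hρ0]
  have hgzm : t₀.g z₀ ∈ ball (p l) (ρ * 2) := by
    rw [hgz]
    exact (Af_mem_ball _ _ hρ _ _).2 hl
  have h23 : Bd c 2 ⊆ Bd c 3 := Bd_mono c (by norm_num)
  have hz3 : z₀ ∈ Bd c 3 := h23 (h.pball j (ball_subset_ball (by nlinarith) hz₀m))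
  have hgz3 : t₀.g z₀ ∈ Bd c 3 := h23 (h.pball l (ball_subset_ball (by nlinarith) hgzm))
  have hz₀V : z₀ ∈ Af (c' j) (p j) ρ⁻¹ ⁻¹' V := by
    change Af (c' j) (p j) ρ⁻¹ (Af (p j) (c' j) ρ z) ∈ V
    rw [Af_inv _ _ hρ0]
    exact hzV
  obtain ⟨t₁, U₁, ht1, hU1, hzU1, hU1s, heq, hb, hlip⟩ := hX.2.2 z₀ hz3 _ t₀ ht0 hz₀V hgz3
  have hsub : ball (p j) (ρ * 4) ⊆ ball z₀ (ρ * 6) := by
    intro x hx
    rw [mem_ball] at hx hz₀m ⊢
    rw [dist_comm] at hz₀m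
    linarith [dist_triangle x (p j) z₀]
  have hsub' : ball (p j) (ρ * 4) ⊆ ball z₀ δ :=
    hsub.trans (ball_subset_ball (by linarith))
  have hself : z₀ ∈ ball z₀ δ := mem_ball_self hX.1
  have hm1 : PMap (Bd c 5) (RelE (G := G) c 5 E) (ball (p j) (ρ * 4)) t₁ := by
    obtain ⟨a1, a2, a3, a4, a5, a6, γ, a7⟩ := ht1
    exact ⟨isOpen_ball, hsub'.trans a2, a3.mono hsub', a4.mono hsub', a5.mono hsub',
      fun x hx => a6 x (hsub' hx), γ, fun x hx => a7 x (hsub' hx)⟩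
  have hmt : MapsTo t₁.g (ball (p j) (ρ * 4)) (ball (p l) (ρ * R')) := by
    intro x hx
    have h1 := hlip x (hsub' hx) z₀ hself
    have h2 := hsub hx
    rw [mem_ball, dist_eq_norm] at h2
    have h3 : ‖t₁.g x - t₁.g z₀‖ ≤ C * (ρ * 6) :=
      h1.trans (mul_le_mul_of_nonneg_left h2.le (by linarith))
    rw [(heq z₀ hzU1).1] at h3
    rw [mem_ball, dist_eq_norm] at hgzm ⊢
    have h4 : ‖t₁.g x - p l‖ ≤ ‖t₁.g x - t₀.g z₀‖ + ‖t₀.g z₀ - p l‖ :=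
      norm_sub_le_norm_sub_add_norm_sub _ _ _
    nlinarith
  have hup := h.pmap_up hm1 (ball_subset_ball (by nlinarith)) hmt
  have hpre : Af (p j) (c' j) ρ ⁻¹' ball (p j) (ρ * 4) = ball (c' j) 4 := by
    ext x
    exact Af_mem_ball _ _ hρ _ _
  rw [hpre] at hup
  have hAd := differentiable_Af (p j) (c' j) ρ
  refine ⟨up p c' ρ j l t₁, Af (p j) (c' j) ρ ⁻¹' U₁, hup, hU1.preimage hAd.continuous, hzU1, ?_, ?_⟩
  · intro x hx
    have := hU1s hx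
    change Af (c' j) (p j) ρ⁻¹ (Af (p j) (c' j) ρ x) ∈ V at this
    rw [Af_inv _ _ hρ0] at this
    exact hVU this
  · intro x hx
    have e := heq _ hx
    refine ⟨?_, ?_, ?_⟩
    · change Af (c' l) (p l) ρ⁻¹ (t₁.g (Af (p j) (c' j) ρ x)) = _
      rw [e.1]
      change Af (c' l) (p l) ρ⁻¹ (Af (p l) (c' l) ρ (t.g (Af (c' j) (p j) ρ⁻¹
        (Af (p j) (c' j) ρ x)))) = _
      rw [Af_inv _ _ hρ0, Af_inv _ _ hρ0]
    · change t₁.a (Af (p j) (c' j) ρ x) = _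
      rw [e.2.1]
      change t.a (Af (c' j) (p j) ρ⁻¹ (Af (p j) (c' j) ρ x)) = _
      rw [Af_inv _ _ hρ0]
    · change t₁.β (Af (p j) (c' j) ρ x) = _
      rw [e.2.2]
      change t.β (Af (c' j) (p j) ρ⁻¹ (Af (p j) (c' j) ρ x)) = _
      rw [Af_inv _ _ hρ0]

/-- The extension theorem for the new leaf map. -/
theorem bigExt (h : Sc c c' p ρ R' κ E E') {δ C : ℝ}
    (hX : Ext5 c (PMap (Bd c 5) (RelE (G := G) c 5 E)) δ C) (hδ : 8 * ρ ≤ δ)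
    (hR : 8 + 8 * C ≤ R') : BigExt c' R' (PMap (Bd c' R') (RelE (G := G) c' R' E')) C := by
  have hC : 1 ≤ C := hX.2.1
  have h4 : (4 : ℝ) ≤ R' := by linarith
  exact ⟨hC, hR, fun j z hz U t ht hzU htz => h.ext_new hX hδ hR hz ht hzU htz,
    fun j t ht x hx y hy => (h.big_key hX hδ h4 ht.1 hx hy).1,
    fun j t ht x hx => (h.big_key hX hδ h4 ht.1 hx hx).2.1,
    fun j t ht x hx y hy => (h.big_key hX hδ h4 ht.1 hx hy).2.2⟩

end Sc

end Pool.Agent.Helper53.SP
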