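import Pool.Agent.Helper53.SP.RescA

/-! # Packet SP-RESC: passage to small balls -/

open Complex Metric Set Filter Topology MeasureTheory
open scoped ContDiff ComplexConjugate ComplexOrder Manifold

namespace Pool.Agent.Helper53.SP

open Pool.Agent.Helper95.Lin Pool.Agent.Helper16.Abund Pool.Agent.Helper92.Orb
open Pool.Agent.Helper10.SP

universe u v

variable {b : ℕ}

/-! ## The rescaling of `ℂᵇ × ℂ` -/

/-- The diagonal map with entries `d`. -/
noncomputable def diagL {n : ℕ} (d : Cn n) : Cn n →L[ℂ] Cn n :=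
  ContinuousLinearMap.pi fun j => d j • ContinuousLinearMap.proj j

theorem diagL_apply {n : ℕ} (d x : Cn n) (j : Fin n) : diagL d x j = d j * x j := by
  simp [diagL]

theorem det_diagL {n : ℕ} (d : Cn n) : (diagL d).det = ∏ j, d j := by
  have h : ((diagL d : Cn n →L[ℂ] Cn n) : Cn n →ₗ[ℂ] Cn n) =
      Matrix.toLin' (Matrix.diagonal d) := by
    refine LinearMap.ext fun x => ?_
    funext j
    rw [Matrix.toLin'_apply, Matrix.mulVec_diagonal]
    exact diagL_apply d x j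
  rw [ContinuousLinearMap.det, h, LinearMap.det_toLin', Matrix.det_diagonal]

/-- The rescaling of the base coordinates. -/
noncomputable def scL (b : ℕ) (ρ : ℝ) : Cn (b + 1) →L[ℂ] Cn (b + 1) :=
  diagL (pt (fun _ : Fin b => (ρ : ℂ)) 1)

theorem det_scL (ρ : ℝ) : (scL b ρ).det = (ρ : ℂ) ^ b := by
  rw [scL, det_diagL, Fin.prod_univ_add]
  simp [pt]

theorem scL_eq (p q : Cn b) (ρ : ℝ) (x : Cn (b + 1)) :
    pt (Af p q ρ (base x)) (lc x) = scL b ρ x + pt (p - (ρ : ℂ) • q) 0 := by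
  funext j
  refine Fin.addCases (fun i => ?_) (fun i => ?_) j
  · simp only [scL, Pi.add_apply, diagL_apply]
    simp [pt, Af, base]
    ring
  · have : i = 0 := Subsingleton.elim _ _
    subst this
    simp only [scL, Pi.add_apply, diagL_apply]
    simp [pt, lc]

theorem hasFDerivAt_sc (p q : Cn b) (ρ : ℝ) (x : Cn (b + 1)) :
    HasFDerivAt (fun x : Cn (b + 1) => pt (Af p q ρ (base x)) (lc x)) (scL b ρ) x := by
  have h : (fun x : Cn (b + 1) => pt (Af p q ρ (base x)) (lc x)) =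
      fun x => scL b ρ x + pt (p - (ρ : ℂ) • q) 0 := funext fun x => scL_eq p q ρ x
  rw [h]
  exact (scL b ρ).hasFDerivAt.add_const _

theorem continuous_base : Continuous fun x : Cn (b + 1) => base x := by
  unfold base
  fun_prop

theorem isOpen_tubeS {D : Set (Cn b)} (hD : IsOpen D) : IsOpen (tubeS D) :=
  hD.preimage continuous_base

/-- The Levi form does not change if a constant is added. -/
theorem lev_congr {n : ℕ} {φ ψ : Cn n → ℝ} {x : Cn n} {K : ℝ}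
    (h : φ =ᶠ[𝓝 x] fun y => ψ y + K) (e : Cn n) : lev φ x e = lev ψ x e := by
  have h1 : fderiv ℝ φ =ᶠ[𝓝 x] fderiv ℝ ψ := by
    refine (h.fderiv (𝕜 := ℝ)).trans ?_
    exact Filter.Eventually.of_forall fun y => fderiv_add_const _
  have h2 : ∀ w, (fun y => fderiv ℝ φ y w) =ᶠ[𝓝 x] fun y => fderiv ℝ ψ y w := fun w =>
    h1.mono fun y hy => congrArg (fun L : Cn n →L[ℝ] ℝ => L w) hy
  simp only [lev, hess]
  rw [(h2 e).fderiv_eq, (h2 (I • e)).fderiv_eq]

namespace Sc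

variable {N N' : ℕ} {M : Type v} [TopologicalSpace M] [T2Space M]
  [ChartedSpace (Fin (b + 1) → ℂ) M] [IsManifold 𝓘(ℂ, Fin (b + 1) → ℂ) ω M]
  {c : Fin N → Cn b} {c' p : Fin N' → Cn b} {ρ R' : ℝ}
  {κ : Cn b → Cn b} {E E' : Cn (b + 1) → M} {G : Type u} [Group G] [MulAction G M]
  {h : M → Matrix (Fin (b + 1)) (Fin (b + 1)) ℂ} {v : M → ℝ}

omit [TopologicalSpace M] [T2Space M] [ChartedSpace (Fin (b + 1) → ℂ) M]
  [IsManifold 𝓘(ℂ, Fin (b + 1) → ℂ) ω M] in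
theorem κ_eq (h : Sc c c' p ρ R' κ E E') {j : Fin N'} {z : Cn b} (hz : z ∈ ball (c' j) R') :
    κ =ᶠ[𝓝 z] Af (p j) (c' j) ρ :=
  Filter.eventually_of_mem (isOpen_ball.mem_nhds hz) fun y hy => h.hκ j y hy

/-- The new leaf map. -/
theorem lmap (hPARB : S_PARB.{u, v}) (hWCH : S_WCH) (hD : Data b G M h v) {Φ : Cn b → ℝ}
    (hL : LMap G v c 5 E Φ) (hS : Sc c c' p ρ R' κ E E') (hN : 0 < N') (hR : 1 < R')
    (hcov : (⋃ i, closedBall (c i) 1) ⊆ ⋃ j, ball (p j) ρ) :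
    LMap G v c' R' E' fun z => Φ (κ z) + Real.log (‖(ρ : ℂ) ^ b‖ ^ 2) := by
  have hρ := hS.ρpos
  have hρ0 : ρ ≠ 0 := hρ.ne'
  have hρc : (ρ : ℂ) ≠ 0 := by exact_mod_cast hρ0
  have hE' : E' = E ∘ fun x => pt (κ (base x)) (lc x) := funext hS.hE
  have h25 : Bd c 2 ⊆ Bd c 5 := Bd_mono c (by norm_num)
  -- the change of coordinates
  have hloc : ∀ x ∈ tubeS (Bd c' R'), ∃ j, base x ∈ ball (c' j) R' ∧
      HasFDerivAt (fun x : Cn (b + 1) => pt (κ (base x)) (lc x)) (scL b ρ) x := by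
    intro x hx
    obtain ⟨j, hj⟩ := mem_iUnion.1 (show base x ∈ Bd c' R' from hx)
    refine ⟨j, hj, ?_⟩
    refine (hasFDerivAt_sc (p j) (c' j) ρ x).congr_of_eventuallyEq ?_
    have h1 : ∀ᶠ y in 𝓝 x, base y ∈ ball (c' j) R' :=
      continuous_base.continuousAt.eventually_mem (isOpen_ball.mem_nhds hj)
    exact h1.mono fun y hy => by
      change pt (κ (base y)) (lc y) = pt (Af (p j) (c' j) ρ (base y)) (lc y)
      rw [hS.hκ j _ hy]
  have hmapκ : ∀ z ∈ Bd c' R', κ z ∈ Bd c 5 := by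
    intro z hz
    obtain ⟨j, hj⟩ := mem_iUnion.1 hz
    rw [hS.hκ j z hj]
    exact h25 (hS.pball j ((Af_mem_ball _ _ hρ _ _).2 hj))
  have hmaps : MapsTo (fun x : Cn (b + 1) => pt (κ (base x)) (lc x)) (tubeS (Bd c' R'))
      (tubeS (Bd c 5)) := by
    intro x hx
    change base (pt _ _) ∈ Bd c 5
    rw [base_pt]
    exact hmapκ _ hx
  have hdet : ∀ x ∈ tubeS (Bd c' R'),
      (fderiv ℂ (fun x : Cn (b + 1) => pt (κ (base x)) (lc x)) x).det = (ρ : ℂ) ^ b := by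
    intro x hx
    obtain ⟨j, -, hj⟩ := hloc x hx
    rw [hj.fderiv, det_scL]
  obtain ⟨hP, -⟩ := hPARB hD
  obtain ⟨hpar, hpot⟩ := hP (tubeS (Bd c 5)) (tubeS (Bd c' R')) E
    (fun x : Cn (b + 1) => pt (κ (base x)) (lc x)) hL.par (isOpen_tubeS (isOpen_Bd c' R'))
    (fun x hx => by
      obtain ⟨j, -, hj⟩ := hloc x hx
      exact hj.differentiableAt.differentiableWithinAt) hmaps
    (fun x hx => by
      rw [hdet x hx]
      exact pow_ne_zero _ hρc)
  rw [← hE'] at hpar hpot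
  refine ⟨hN, hR, hS.sep, hpar, ?_, ?_, ?_, ?_⟩
  · intro z hz
    obtain ⟨j, hj⟩ := mem_iUnion.1 hz
    have h1 : ContDiffAt ℝ ∞ (Φ ∘ Af (p j) (c' j) ρ) z := by
      refine ContDiffAt.comp z ?_ (contDiff_Af (p j) (c' j) ρ).contDiffAt
      exact hL.smooth.contDiffAt ((isOpen_Bd c 5).mem_nhds
        (h25 (hS.pball j ((Af_mem_ball _ _ hρ _ _).2 hj))))
    have h2 : (Φ ∘ κ) =ᶠ[𝓝 z] Φ ∘ Af (p j) (c' j) ρ := (hS.κ_eq hj).fun_comp Φ
    exact ((h1.congr_of_eventuallyEq h2).add contDiffAt_const).contDiffWithinAt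
  · intro z hz e he
    obtain ⟨j, hj⟩ := mem_iUnion.1 hz
    have h2 : (fun z => Φ (κ z) + Real.log (‖(ρ : ℂ) ^ b‖ ^ 2)) =ᶠ[𝓝 z]
        fun y => (Φ ∘ Af (p j) (c' j) ρ) y + Real.log (‖(ρ : ℂ) ^ b‖ ^ 2) :=
      (hS.κ_eq hj).mono fun y hy => by simp only [hy, Function.comp]
    rw [lev_congr h2]
    have hmem : MapsTo (Af (p j) (c' j) ρ) (ball (c' j) R') (Bd c 5) := fun y hy =>
      h25 (hS.pball j ((Af_mem_ball _ _ hρ _ _).2 hy))
    have h3 := ((hWCH.1 (Bd c 5) (ball (c' j) R') (isOpen_Bd c 5) isOpen_ball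
      (Af (p j) (c' j) ρ) (differentiable_Af _ _ _).differentiableOn hmem).2 Φ hL.smooth z hj).1 e
    rw [h3, (hasFDerivAt_Af (p j) (c' j) ρ z).fderiv]
    refine hL.pos _ (hmem hj) _ ?_
    simp only [smul_apply, ContinuousLinearMap.id_apply]
    exact smul_ne_zero hρc he
  · intro x hx
    rw [(hpot x hx).2, hdet x hx, hL.pot _ (hmaps hx), base_pt]
  · intro q
    obtain ⟨γ, z, hz, w, hw, hq⟩ := hL.cov q
    have hz' : z ∈ ⋃ i, closedBall (c i) 1 := by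
      obtain ⟨i, hi⟩ := mem_iUnion.1 hz
      exact mem_iUnion.2 ⟨i, ball_subset_closedBall hi⟩
    obtain ⟨j, hj⟩ := mem_iUnion.1 (hcov hz')
    have h1 : Af (c' j) (p j) ρ⁻¹ z ∈ ball (c' j) 1 := by
      have := (Af_mem_ball (c' j) (p j) (inv_pos.2 hρ) ρ z).2 hj
      rwa [inv_mul_cancel₀ hρ0] at this
    refine ⟨γ, Af (c' j) (p j) ρ⁻¹ z, ball_sub_Bd c' 1 j h1, w, hw, ?_⟩
    rw [hS.hE, base_pt, lc_pt, hS.hκ j _ (ball_subset_ball hR.le h1), Af_inv' _ _ hρ0]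
    exact hq

end Sc

/-- RESC. -/
theorem resc (hPARB : S_PARB.{u, v}) (hWCH : S_WCH) : S_RESC.{u, v} := by
  intro b N G M _ _ _ _ _ _ h v hb hD c E Φ hL δ C hX
  have hδ : 0 < δ := hX.1
  have hC : 1 ≤ C := hX.2.1
  set R' : ℝ := 8 + 8 * C with hR'
  have hR'pos : 0 < R' := by linarith
  set ρ : ℝ := min (δ / 16) (1 / R') with hρdef
  have hρ : 0 < ρ := lt_min (by positivity) (by positivity)
  have hρδ : 8 * ρ ≤ δ := by
    have : ρ ≤ δ / 16 := min_le_left _ _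
    linarith
  have hρR : ρ * R' ≤ 1 := by
    have : ρ ≤ 1 / R' := min_le_right _ _
    calc ρ * R' ≤ 1 / R' * R' := mul_le_mul_of_nonneg_right this hR'pos.le
      _ = 1 := by field_simp
  -- the cover
  have hK : IsCompact (⋃ i, closedBall (c i) 1) := isCompact_iUnion fun i => isCompact_closedBall _ _
  obtain ⟨T, hTs, hTf, hTc⟩ := hK.finite_cover_balls hρ
  have hTne : T.Nonempty := by
    have h0 : c ⟨0, hL.posN⟩ ∈ ⋃ i, closedBall (c i) 1 :=
      mem_iUnion.2 ⟨_, mem_closedBall_self zero_le_one⟩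
    obtain ⟨x, hx, -⟩ := mem_iUnion₂.1 (hTc h0)
    exact ⟨x, hx⟩
  set F := hTf.toFinset with hF
  set N' := F.card with hN'
  let e := F.equivFin
  let p : Fin N' → Cn b := fun j => (e.symm j : Cn b)
  have hp : ∀ j, p j ∈ T := fun j => by
    exact hTf.mem_toFinset.1 (e.symm j).2
  have hpc : ∀ x ∈ T, ∃ j, p j = x := fun x hx => by
    have hxF : x ∈ F := by rwa [hF, Set.Finite.mem_toFinset]
    exact ⟨e ⟨x, hxF⟩, by simp [p]⟩
  have hNpos : 0 < N' := by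
    obtain ⟨x, hx⟩ := hTne
    obtain ⟨j, -⟩ := hpc x hx
    exact j.pos
  let c' : Fin N' → Cn b := fun j => Pi.single ⟨0, hb⟩ ((20 * R' * (j : ℕ) : ℝ) : ℂ)
  have hsep : ∀ i j, i ≠ j → 10 * R' ≤ ‖c' i - c' j‖ := by
    intro i j hij
    have h1 : c' i - c' j = Pi.single ⟨0, hb⟩ (((20 * R' * ((i : ℕ) - (j : ℕ) : ℝ)) : ℝ) : ℂ) := by
      simp only [c']
      rw [← Pi.single_sub]
      congr 1
      push_cast
      ring
    rw [h1, Pi.norm_single, Complex.norm_real, Real.norm_eq_abs, abs_mul,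
      abs_of_pos (by positivity : (0 : ℝ) < 20 * R')]
    have h2 : (1 : ℝ) ≤ |((i : ℕ) : ℝ) - ((j : ℕ) : ℝ)| := by
      have h3 : ((i : ℕ) : ℤ) - ((j : ℕ) : ℤ) ≠ 0 := by
        intro h4
        apply hij
        apply Fin.ext
        omega
      have h5 := Int.one_le_abs h3
      exact_mod_cast h5
    nlinarith
  have hdis : ∀ i j, ∀ z, z ∈ ball (c' i) R' → z ∈ ball (c' j) R' → i = j := by
    intro i j z hi hj
    by_contra hne
    have h1 := hsep i j hne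
    rw [← dist_eq_norm] at h1
    have h2 : dist (c' i) (c' j) ≤ dist z (c' i) + dist z (c' j) := by
      rw [dist_comm z (c' i)]
      exact dist_triangle _ _ _
    rw [mem_ball] at hi hj
    linarith
  classical
  let κ : Cn b → Cn b := fun z =>
    if hz : ∃ j, z ∈ ball (c' j) R' then Af (p hz.choose) (c' hz.choose) ρ z else z
  have hκ : ∀ j, ∀ z ∈ ball (c' j) R', κ z = Af (p j) (c' j) ρ z := by
    intro j z hz
    have hex : ∃ j, z ∈ ball (c' j) R' := ⟨j, hz⟩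
    have h1 : hex.choose = j := hdis _ _ z hex.choose_spec hz
    simp only [κ, dif_pos hex]
    rw [h1]
  let E' : Cn (b + 1) → M := fun x => E (pt (κ (base x)) (lc x))
  have hS : Sc c c' p ρ R' κ E E' :=
    ⟨hρ, hR'pos, hρR, hsep, fun j => hTs (hp j), hκ, fun _ => rfl⟩
  have hcov : (⋃ i, closedBall (c i) 1) ⊆ ⋃ j, ball (p j) ρ := by
    intro z hz
    obtain ⟨x, hx, hzx⟩ := mem_iUnion₂.1 (hTc hz)
    obtain ⟨j, hj⟩ := hpc x hx
    exact mem_iUnion.2 ⟨j, by rw [hj]; exact hzx⟩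
  exact ⟨N', c', R', C, E', _, hS.lmap hPARB hWCH hD hL hNpos (by linarith) hcov,
    hS.bigExt hX hρδ le_rfl⟩

end Pool.Agent.Helper53.SP
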