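import Pool.Agent.Helper82.SP.GoalsB

/-!
# Packet SP-B11a (MP_db6300_gt)
-/

set_option autoImplicit false

namespace Pool.Agent.Helper53.SP

open Matrix Real
open Pool.Agent.Helper26.LU (V M3 SO3 nrm sph proj Bm Rot crossM)
open Pool.Agent.Helper82.SP

theorem goalB11a (hTB : G_TB) (hLIN : G_LIN) : G_B11a := by
  intro v a n k μ U hv hU hne h hsum hn
  have hlin : (Matrix.of fun p m : Fin 3 => ∑ i, μ i * n i p * v i m : M3) = 0 := by
    refine hLIN _ (∑ i, μ i * k i) U hU hne ?_
    intro R hRU hR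
    obtain ⟨t, ht⟩ := h R hRU hR
    have e1 : ∀ i, μ i * k i = μ i * (n i ⬝ᵥ (R *ᵥ v i)) + μ i * (n i ⬝ᵥ t) := by
      intro i
      by_cases hi : μ i = 0
      · rw [hi]; ring
      · rw [← ht i hi, dotProduct_add, mul_add]
    have e2 : ∑ i, μ i * (n i ⬝ᵥ t) = 0 := by
      have : ∑ i, μ i * (n i ⬝ᵥ t) = (∑ i, μ i • n i) ⬝ᵥ t := by
        rw [sum_dotProduct]
        refine Finset.sum_congr rfl fun i _ => ?_
        rw [smul_dotProduct, smul_eq_mul]
      rw [this, hsum, zero_dotProduct]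
    have e3 : ∑ i, μ i * k i = ∑ i, μ i * (n i ⬝ᵥ (R *ᵥ v i)) := by
      rw [Finset.sum_congr rfl fun i _ => e1 i, Finset.sum_add_distrib, e2, add_zero]
    rw [e3]
    simp only [Matrix.of_apply, dotProduct, mulVec, Fin.sum_univ_three, Fin.sum_univ_four]
    ring
  have hG : ∀ p m, ∑ i, μ i * n i p * v i m = 0 := fun p m => congrFun (congrFun hlin p) m
  have hy : ∀ y : V, ∑ i, (μ i * (v i ⬝ᵥ y)) • n i = 0 := by
    intro y
    funext p
    have e : (∑ i, (μ i * (v i ⬝ᵥ y)) • n i) p = ∑ m, y m * ∑ i, μ i * n i p * v i m := by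
      simp only [Finset.sum_apply, Pi.smul_apply, smul_eq_mul, dotProduct, Fin.sum_univ_three,
        Fin.sum_univ_four]
      ring
    rw [e]
    simp [hG]
  have ha : a ≠ 0 := hv.1.ne'
  have h3 := (hTB v a hv).2.2.1
  funext j
  by_contra hj
  have hbc : ∀ i, bc v a (v i) j = if i = j then 1 else 0 := by
    intro i
    unfold bc
    rw [h3 i j]
    split_ifs
    · field_simp
      norm_num
    · field_simp
      norm_num
  have hs : ∑ i, (μ i * bc v a (v i) j) • n i = μ j • n j := by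
    rw [Finset.sum_eq_single j]
    · rw [hbc, if_pos rfl, mul_one]
    · intro i _ hi
      rw [hbc, if_neg hi, mul_zero, zero_smul]
    · intro hx
      exact absurd (Finset.mem_univ _) hx
  have hs2 : ∑ i, (μ i * bc v a (v i) j) • n i = 0 := by
    have e : ∀ i, (μ i * bc v a (v i) j) • n i =
        (1 / 4 - 2 / a ^ 2 * (gv v ⬝ᵥ (v j - gv v))) • (μ i • n i) +
          (μ i * (v i ⬝ᵥ ((2 / a ^ 2) • (v j - gv v)))) • n i := by
      intro i
      unfold bc
      rw [sub_dotProduct, dotProduct_smul, smul_eq_mul, smul_smul, ← add_smul]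
      congr 1
      ring
    rw [Finset.sum_congr rfl fun i _ => e i, Finset.sum_add_distrib, ← Finset.smul_sum, hsum,
      smul_zero, hy, add_zero]
  rw [hs] at hs2
  rcases smul_eq_zero.1 hs2 with h4 | h4
  · exact hj h4
  · exact hn j hj h4

end Pool.Agent.Helper53.SP
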